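import Pool.Agent.MP_ed9623_an.H77.SpecX

/-! The inequalities for the coefficients in the strictly hyperbolic case. -/

open MeasureTheory Filter Topology Set

namespace Pool.Agent.MP_ed9623_an.H77

namespace CoefH

theorem abs_le_of_sq {x k S : ℝ} (h : x ^ 2 ≤ k) (hS : 1 + k ≤ S) : |x| ≤ S := by
  nlinarith [sq_abs x, sq_nonneg (|x| - 1), abs_nonneg x]

theorem low {κ m n c ξ η : ℝ} (hκ : 0 < κ) (hc : 0 ≤ c) (hm : κ ≤ m) (hn : κ ≤ n) :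
    c * (ξ ^ 2 + η ^ 2) ≤ c / κ * (m * ξ ^ 2 + n * η ^ 2) := by
  have h1 : κ * (ξ ^ 2 + η ^ 2) ≤ m * ξ ^ 2 + n * η ^ 2 := by
    nlinarith [mul_nonneg (sub_nonneg.2 hm) (sq_nonneg ξ), mul_nonneg (sub_nonneg.2 hn) (sq_nonneg η)]
  have h2 := mul_le_mul_of_nonneg_left h1 (div_nonneg hc hκ.le)
  rwa [← mul_assoc, div_mul_cancel₀ _ hκ.ne'] at h2

theorem cross {a S ξ η : ℝ} (h : |a| ≤ S) : 2 * |a * ξ * η| ≤ S * (ξ ^ 2 + η ^ 2) := by
  rw [abs_mul, abs_mul]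
  have h1 : 2 * (|ξ| * |η|) ≤ ξ ^ 2 + η ^ 2 := by
    nlinarith [sq_abs ξ, sq_abs η, sq_nonneg (|ξ| - |η|)]
  have h2 : 0 ≤ |ξ| * |η| := by positivity
  nlinarith [abs_nonneg a]

theorem first {a b c d S ξ η : ℝ} (ha : |a| ≤ S) (hb : |b| ≤ S) (hc : |c| ≤ S) (hd : |d| ≤ S) :
    (a + 2 * b) * ξ ^ 2 - 2 * c * ξ * η + d * η ^ 2 ≤ 4 * S * (ξ ^ 2 + η ^ 2) := by
  have h0 : 0 ≤ S := (abs_nonneg a).trans ha
  have h1 := cross (ξ := ξ) (η := η) hc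
  have h2 := neg_abs_le (c * ξ * η)
  have h3 := mul_le_mul_of_nonneg_right (le_of_abs_le ha) (sq_nonneg ξ)
  have h4 := mul_le_mul_of_nonneg_right (le_of_abs_le hb) (sq_nonneg ξ)
  have h5 := mul_le_mul_of_nonneg_right (le_of_abs_le hd) (sq_nonneg η)
  nlinarith [mul_nonneg h0 (sq_nonneg η)]

theorem second {n l S ξ η : ℝ} (hn : |n| ≤ S) (hl : |l| ≤ S) :
    2 * |n * ξ * η - l * ξ ^ 2| ≤ 3 * S * (ξ ^ 2 + η ^ 2) := by
  have h0 : 0 ≤ S := (abs_nonneg n).trans hn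
  have h1 := cross (ξ := ξ) (η := η) hn
  have h2 := abs_sub (n * ξ * η) (l * ξ ^ 2)
  have h3 : |l * ξ ^ 2| ≤ S * ξ ^ 2 := by
    rw [abs_mul, abs_of_nonneg (sq_nonneg ξ)]
    exact mul_le_mul_of_nonneg_right hl (sq_nonneg ξ)
  nlinarith [mul_nonneg h0 (sq_nonneg η)]

end CoefH

open CoefH in
theorem rowCoefH : OfCoefH := by
  intro hC r R m₀ n₀ l₀ m n l hr hR m2 n2 l2 hm hn hl em en el m0 n0
  obtain ⟨-, mY, mS, km, -, a2, -, a4, a5, a6, a7⟩ := hC r R m hr hR m2 hm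
  obtain ⟨-, nY, nS, kn, b1, b2, b3, b4, b5, b6, b7⟩ := hC r R n hr hR n2 hn
  obtain ⟨-, lY, lS, kl, c1, -, c3, -, c5, c6, c7⟩ := hC r R l hr hR l2 hl
  obtain ⟨κ, hκ, k1, k2⟩ : ∃ κ : ℝ, 0 < κ ∧ 2 * κ ≤ m₀ ∧ 2 * κ ≤ n₀ :=
    ⟨min m₀ n₀ / 2, half_pos (lt_min m0 n0), by linarith [min_le_left m₀ n₀],
      by linarith [min_le_right m₀ n₀]⟩
  obtain ⟨e1, p1, em⟩ := em κ hκ
  obtain ⟨e2, p2, en⟩ := en κ hκ
  obtain ⟨e3, p3, el⟩ := el κ hκ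
  obtain ⟨r₁, r0, r1, r2, r3, r4, r5⟩ : ∃ r₁ : ℝ, 0 < r₁ ∧ r₁ ≤ r ∧ r₁ ≤ 1 ∧ r₁ ≤ e1 ∧ r₁ ≤ e2 ∧
      r₁ ≤ e3 :=
    ⟨min (min r 1) (min e1 (min e2 e3)), by positivity, by simp, by simp, by simp, by simp, by simp⟩
  obtain ⟨S, hS⟩ : ∃ S : ℝ, S = m₀ + n₀ + |l₀| + κ := ⟨_, rfl⟩
  have l0 := abs_nonneg l₀
  have S0 : 0 ≤ S := by rw [hS]; positivity
  have S1 : 0 ≤ 3 * S / κ := by positivity
  have sub : Qp 0 r₁ ⊆ Q r := (Qp_sub 0 r₁).trans (Q_mono r1)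
  have isub : Ioo (0 : ℝ) r₁ ⊆ Ioo 0 r := Ioo_subset_Ioo_right r1
  refine ⟨r₁, S + 3 * S / κ, κ, fun s => 4 * (1 + km s + kn s + kl s) / κ, mS, nS, nY, lY, r0, r1,
    ⟨m2, a2, n2, b2, b1, l2, c1⟩, a4.mono sub, b4.mono sub, b3.mono sub, c3.mono sub, ?_,
    fun s => ?_, by positivity, hκ, ?_⟩
  · refine Integrable.div_const (Integrable.const_mul ?_ _) _
    exact (((integrableOn_const (by simp)).add (a5.mono_set isub)).add (b5.mono_set isub)).add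
      (c5.mono_set isub)
  · have := a6 s
    have := b6 s
    have := c6 s
    positivity
  filter_upwards [a7, b7, c7, em, en, el] with p a7 b7 c7 em en el hp
  have hq := Qp_mono r1 hp
  replace em := abs_le.1 (em (Q_mono r3 hp.1))
  replace en := abs_le.1 (en (Q_mono r4 hp.1))
  replace el := abs_le.1 (el (Q_mono r5 hp.1))
  have u1 : |m p| ≤ S := abs_le.2 ⟨by linarith [em.1], by linarith [em.2]⟩
  have u2 : |n p| ≤ S := abs_le.2 ⟨by linarith [en.1], by linarith [en.2]⟩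
  have u3 : |l p| ≤ S :=
    abs_le.2 ⟨by linarith [el.1, neg_abs_le l₀], by linarith [el.2, le_abs_self l₀]⟩
  have v1 : κ ≤ m p := by linarith [em.1]
  have v2 : κ ≤ n p := by linarith [en.1]
  refine ⟨by linarith, by linarith, by linarith, v1, v2, fun ξ η => ⟨?_, ?_⟩⟩
  · have x1 := a6 p.2
    have x2 := b6 p.2
    have x3 := c6 p.2
    refine (first (S := 1 + km p.2 + kn p.2 + kl p.2) (abs_le_of_sq (a7 hq).2 (by linarith))
      (abs_le_of_sq (c7 hq).1 (by linarith)) (abs_le_of_sq (b7 hq).1 (by linarith))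
      (abs_le_of_sq (b7 hq).2 (by linarith))).trans (low hκ (by positivity) v1 v2)
  · refine ((second u2 u3).trans (low hκ (by positivity) v1 v2)).trans
      (mul_le_mul_of_nonneg_right ?_ ?_)
    · have s0 : 0 < p.2 := hp.2
      have s1 : p.2 ≤ 1 := ((le_abs_self _).trans (mem_Q.1 hp.1).2.le).trans r2
      have s2 : √p.2 ≤ 1 := Real.sqrt_le_one.2 s1
      rw [le_div_iff₀ (Real.sqrt_pos.2 s0)]
      nlinarith
    · have := hκ.le.trans v1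
      have := hκ.le.trans v2
      positivity

end Pool.Agent.MP_ed9623_an.H77
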